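import Pool.Agent.Helper4.HZ.Goals

/-! # Packet BCA of project HZ (MP_af40fb_al) -/

set_option autoImplicit false

namespace Pool.Agent.Helper91.HZ

open Pool.Agent.Helper4.HZ

/-- the matrix of the left multiplication by `a` -/
def mat {G : Type} [Group G] (p : ℕ) (a : MonoidAlgebra (ZMod p) G) : Matrix G G (ZMod p) :=
  Matrix.of fun g h => a.coeff (g * h⁻¹)

theorem coeff_mul_sum {G : Type} [Group G] [Fintype G] (p : ℕ)
    (a b : MonoidAlgebra (ZMod p) G) (y : G) :
    (a * b).coeff y = ∑ k : G, a.coeff (y * k⁻¹) * b.coeff k := by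
  classical
  rw [MonoidAlgebra.coeff_mul_antidiag a b y (Finset.univ.image fun k : G => (y * k⁻¹, k)),
    Finset.sum_image]
  · intro k _ k' _ h
    exact (Prod.mk.inj h).2
  · rintro ⟨u, v⟩
    simp only [Finset.mem_image, Finset.mem_univ, true_and, Prod.mk.injEq]
    constructor
    · rintro ⟨k, h1, h2⟩
      rw [← h1, ← h2]
      group
    · intro h
      exact ⟨v, by rw [← h]; group, rfl⟩

theorem mat_mul {G : Type} [Group G] [Fintype G] (p : ℕ)
    (a b : MonoidAlgebra (ZMod p) G) : mat p (a * b) = mat p a * mat p b := by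
  ext g h
  rw [Matrix.mul_apply]
  simp only [mat, Matrix.of_apply]
  rw [coeff_mul_sum]
  refine Fintype.sum_equiv (Equiv.mulRight h) _ _ fun k => ?_
  simp [mul_assoc]

theorem mat_pow {G : Type} [Group G] [Fintype G] [DecidableEq G] (p : ℕ)
    (a : MonoidAlgebra (ZMod p) G) (n : ℕ) : mat p (a ^ n) = mat p a ^ n := by
  induction n with
  | zero =>
    ext g h
    simp only [mat, pow_zero, Matrix.of_apply, MonoidAlgebra.one_def, MonoidAlgebra.coeff_single,
      Finsupp.single_apply, Matrix.one_apply]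
    congr 1
    rw [eq_comm (a := (1 : G)), mul_inv_eq_one]
  | succ n ih => rw [pow_succ, pow_succ, mat_mul, ih]

theorem BCA_holds : S_BCA := by
  intro G _ _ p _ hp u hu h
  classical
  have := Fintype.ofFinite G
  have key : ∀ a : MonoidAlgebra (ZMod p) G, (a ^ p).coeff 1 = a.coeff 1 := by
    intro a
    have htr : ∀ b : MonoidAlgebra (ZMod p) G,
        (mat p b).trace = (Fintype.card G : ZMod p) * b.coeff 1 := by
      intro b
      simp only [Matrix.trace, Matrix.diag_apply, mat, Matrix.of_apply, mul_inv_cancel,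
        Finset.sum_const, Finset.card_univ, nsmul_eq_mul]
    have h1 := ZMod.trace_pow_card (mat p a)
    rw [← mat_pow, htr, htr, ZMod.pow_card] at h1
    have h2 : (Fintype.card G : ZMod p) ≠ 0 := by
      rw [Ne, ZMod.natCast_eq_zero_iff]
      rwa [Nat.card_eq_fintype_card] at hp
    exact mul_left_cancel₀ h2 h1
  have h1 := key (u * MonoidAlgebra.single h⁻¹ 1)
  rw [(hu h⁻¹).mul_pow, MonoidAlgebra.single_pow, one_pow, MonoidAlgebra.coeff_mul_single_apply,
    MonoidAlgebra.coeff_mul_single_apply] at h1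
  simpa using h1

end Pool.Agent.Helper91.HZ
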