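import Pool.Agent.Helper4.HZ.Goals
import Pool.Agent.Helper23.Hurwitz.Basic

/-! # Packet BCD of project HZ (MP_af40fb_al) -/

set_option autoImplicit false

namespace Pool.Agent.Helper91.HZ

open Pool.Agent.Helper4.HZ Pool.Agent.Helper23.Hurwitz

theorem BCD_holds (hC : S_BCC) : S_BCD := by
  intro N _ hN huniq i hi
  have hfin : Finite (Delta ⧸ N) := Nat.finite_of_card_ne_zero (show Nat.card (Delta ⧸ N) ≠ 0 from hN)
  have hx2 : (QuotientGroup.mk' N gx) ^ 2 = 1 := by rw [← map_pow, gx_sq, map_one]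
  have hy3 : (QuotientGroup.mk' N gy) ^ 3 = 1 := by rw [← map_pow, gy_cube, map_one]
  have hz7 : (QuotientGroup.mk' N gx * QuotientGroup.mk' N gy) ^ 7 = 1 := by
    rw [← map_mul, ← map_pow, gz_pow, map_one]
  have hcl : Subgroup.closure {QuotientGroup.mk' N gx, QuotientGroup.mk' N gy} =
      (⊤ : Subgroup (Delta ⧸ N)) := by
    have h1 : ({QuotientGroup.mk' N gx, QuotientGroup.mk' N gy} : Set (Delta ⧸ N)) =
        QuotientGroup.mk' N '' {gx, gy} := by rw [Set.image_pair]
    rw [h1, ← MonoidHom.map_closure, closure_gens, ← MonoidHom.range_eq_map,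
      MonoidHom.range_eq_top.2 (QuotientGroup.mk'_surjective N)]
  obtain ⟨x', y', hx', hy', hcl', hxy⟩ := hC (Delta ⧸ N) i hi _ _ hx2 hy3 hcl
  obtain ⟨φ, hφx, hφy⟩ := exists_lift x' y' hx' hy' (by
    rw [hxy, ← pow_mul, mul_comm, pow_mul, hz7, one_pow])
  have hsurj : Function.Surjective φ := by
    rw [← MonoidHom.range_eq_top, eq_top_iff, ← hcl', Subgroup.closure_le]
    rintro t (rfl | ht)
    · exact ⟨gx, hφx⟩
    · rw [Set.mem_singleton_iff.1 ht]
      exact ⟨gy, hφy⟩
  have hker : φ.ker = N := by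
    apply huniq _ inferInstance
    rw [Subgroup.index_ker, MonoidHom.range_eq_top.2 hsurj]
    exact Nat.card_congr Subgroup.topEquiv.toEquiv
  refine ⟨(QuotientGroup.quotientMulEquivOfEq hker.symm).trans
    (QuotientGroup.quotientKerEquivOfSurjective φ hsurj), ?_⟩
  have h1 : ((QuotientGroup.quotientMulEquivOfEq hker.symm).trans
    (QuotientGroup.quotientKerEquivOfSurjective φ hsurj)) (QuotientGroup.mk' N (gx * gy)) =
      φ (gx * gy) := rfl
  rw [h1, map_mul, hφx, hφy, hxy, map_mul]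

end Pool.Agent.Helper91.HZ
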