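import Pool.Agent.Helper4.HZ.Goals

/-! # Packet LIN of project HZ (MP_af40fb_al) -/

set_option autoImplicit false

namespace Pool.Agent.Helper91.HZ

open Pool.Agent.Helper4.HZ

theorem six_le {k W : Type*} [Field k] [IsAlgClosed k] [AddCommGroup W] [Module k W]
    [Module.Finite k W] (h7 : (7 : k) ≠ 0) (Z A : Module.End k W) (hZ : Z ^ 7 = 1) (hZ1 : Z ≠ 1)
    (hA : Function.Injective A) (hAZ : A * Z = Z ^ 3 * A) : 6 ≤ Module.finrank k W := by
  -- an eigenvector in the range of `Z - 1`
  obtain ⟨w, hw⟩ : ∃ w, Z w ≠ w := by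
    by_contra hcon
    push Not at hcon
    exact hZ1 (LinearMap.ext hcon)
  have hR : ∀ x ∈ LinearMap.range (Z - 1), Z x ∈ LinearMap.range (Z - 1) := by
    rintro _ ⟨y, rfl⟩
    refine ⟨Z y, ?_⟩
    simp [LinearMap.sub_apply, map_sub]
  have hnt : Nontrivial (LinearMap.range (Z - 1)) := by
    refine ⟨⟨⟨(Z - 1) w, ⟨w, rfl⟩⟩, 0, fun h ↦ hw ?_⟩⟩
    have h1 := congrArg Subtype.val h
    simp only [LinearMap.sub_apply, Module.End.one_apply, ZeroMemClass.coe_zero] at h1
    exact sub_eq_zero.1 h1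
  obtain ⟨ζ, hζ⟩ := Module.End.exists_eigenvalue (Z.restrict hR)
  obtain ⟨⟨v, hvR⟩, hv⟩ := hζ.exists_hasEigenvector
  have hv0 : v ≠ 0 := fun h ↦ hv.2 (Subtype.ext h)
  have hZv : Z v = ζ • v := congrArg Subtype.val hv.apply_eq_smul
  have hpow : ∀ n : ℕ, (Z ^ n) v = ζ ^ n • v := by
    intro n
    induction n with
    | zero => simp
    | succ n ih =>
      rw [pow_succ', Module.End.mul_apply, ih, map_smul, hZv, smul_smul, pow_succ]
  have hζ7 : ζ ^ 7 = 1 := by
    have h1 := hpow 7
    rw [hZ, Module.End.one_apply] at h1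
    have h2 : (ζ ^ 7 - 1) • v = 0 := by rw [sub_smul, one_smul, ← h1, sub_self]
    exact sub_eq_zero.1 ((smul_eq_zero.1 h2).resolve_right hv0)
  have hζ1 : ζ ≠ 1 := by
    rintro rfl
    obtain ⟨y, hy⟩ := hvR
    have h1 : Z y = y + v := by
      rw [← hy, LinearMap.sub_apply, Module.End.one_apply]
      abel
    have h2 : ∀ n : ℕ, (Z ^ n) y = y + (n : k) • v := by
      intro n
      induction n with
      | zero => simp
      | succ n ih =>
        rw [pow_succ', Module.End.mul_apply, ih, map_add, map_smul, hZv, h1, one_smul]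
        push_cast
        rw [add_smul, one_smul]
        abel
    have h3 := h2 7
    rw [hZ, Module.End.one_apply] at h3
    have h4 : ((7 : ℕ) : k) • v = 0 := by
      have : y + ((7 : ℕ) : k) • v = y + 0 := by rw [← h3, add_zero]
      exact add_left_cancel this
    rcases smul_eq_zero.1 h4 with h5 | h5
    · exact h7 (by exact_mod_cast h5)
    · exact hv0 h5
  have hord : orderOf ζ = 7 := by
    have : Fact (Nat.Prime 7) := ⟨by norm_num⟩
    exact orderOf_eq_prime hζ7 hζ1
  -- the other eigenvectors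
  have hstep : ∀ (u : W) (η : k), Z u = η • u → Z (A u) = η ^ 5 • A u := by
    intro u η hu
    have h1 : (Z ^ 3) (A u) = η • A u := by
      rw [← Module.End.mul_apply, ← hAZ, Module.End.mul_apply, hu, map_smul]
    have h2 : ∀ n : ℕ, ((Z ^ 3) ^ n) (A u) = η ^ n • A u := by
      intro n
      induction n with
      | zero => simp
      | succ n ih =>
        rw [pow_succ', Module.End.mul_apply, ih, map_smul, h1, smul_smul, pow_succ]
    have h3 : Z = (Z ^ 3) ^ 5 := by
      calc Z = (Z ^ 7) ^ 2 * Z := by rw [hZ, one_pow, one_mul]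
        _ = (Z ^ 3) ^ 5 := by rw [← pow_mul, ← pow_mul, ← pow_succ]
    calc Z (A u) = ((Z ^ 3) ^ 5) (A u) := by rw [← h3]
      _ = η ^ 5 • A u := h2 5
  have hev : ∀ n : ℕ, Z ((A ^ n) v) = ζ ^ 5 ^ n • (A ^ n) v := by
    intro n
    induction n with
    | zero => simpa using hZv
    | succ n ih =>
      have h1 := hstep _ _ ih
      rw [pow_succ' A, Module.End.mul_apply, h1, ← pow_mul, ← pow_succ]
  have hne : ∀ n : ℕ, (A ^ n) v ≠ 0 := by
    intro n
    induction n with
    | zero => simpa using hv0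
    | succ n ih =>
      rw [pow_succ', Module.End.mul_apply]
      exact fun h ↦ ih (hA (by rw [h, map_zero]))
  have hinj : Function.Injective (fun n : Fin 6 ↦ ζ ^ 5 ^ (n : ℕ)) := by
    intro a b hab
    simp only at hab
    have hprim : IsPrimitiveRoot ζ 7 := hord ▸ IsPrimitiveRoot.orderOf ζ
    rw [← pow_mod_orderOf, ← pow_mod_orderOf ζ (5 ^ (b : ℕ)), hord] at hab
    have h1 := hprim.pow_inj (Nat.mod_lt _ (by norm_num)) (Nat.mod_lt _ (by norm_num)) hab
    clear hab
    revert a b
    decide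
  have hli := Module.End.eigenvectors_linearIndependent' Z (fun n : Fin 6 ↦ ζ ^ 5 ^ (n : ℕ)) hinj
    (fun n : Fin 6 ↦ (A ^ (n : ℕ)) v) (fun n ↦ by
      rw [Module.End.hasEigenvector_iff]
      exact ⟨Module.End.mem_eigenspace_iff.2 (hev n), hne n⟩)
  simpa using hli.fintype_card_le_finrank

theorem LIN_holds : S_LIN := by
  intro p _ hp7 V _ _ _ Z A hZ hZ1 hA hAZ
  let k := AlgebraicClosure (ZMod p)
  have h7 : (7 : k) ≠ 0 := by
    intro h
    have h1 : ((7 : ℕ) : k) = 0 := by exact_mod_cast h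
    rw [CharP.cast_eq_zero_iff k p] at h1
    have h2 := (Nat.prime_dvd_prime_iff_eq (Fact.out : p.Prime) (by norm_num : Nat.Prime 7)).1 h1
    exact hp7 h2
  let φ : Module.End (ZMod p) V →ₐ[ZMod p] Module.End k (TensorProduct (ZMod p) k V) :=
    Module.End.baseChangeHom (ZMod p) k V
  have hu : IsUnit A := LinearMap.isUnit_iff_ker_eq_bot A |>.2 (LinearMap.ker_eq_bot.2 hA)
  have hφA : Function.Injective (φ A) := by
    have := hu.map φ
    exact LinearMap.ker_eq_bot.1 ((LinearMap.isUnit_iff_ker_eq_bot _).1 this)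
  have hφZ1 : φ Z ≠ 1 := by
    intro h
    apply hZ1
    ext v
    have h1 : φ Z (TensorProduct.tmul (ZMod p) (1 : k) v) = TensorProduct.tmul (ZMod p) (1 : k) v := by
      rw [h, Module.End.one_apply]
    have h2 : TensorProduct.tmul (ZMod p) (1 : k) (Z v) = TensorProduct.tmul (ZMod p) (1 : k) v := h1
    exact Module.FaithfullyFlat.tensorProduct_mk_injective (A := ZMod p) (B := k) V h2
  have key := six_le (k := k) h7 (φ Z) (φ A) (by rw [← map_pow, hZ, map_one]) hφZ1 hφA
    (by rw [← map_mul, hAZ, map_mul, map_pow])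
  rwa [Module.finrank_baseChange] at key

end Pool.Agent.Helper91.HZ
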