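import Pool.Agent.Helper4.HZ.Goals

/-! # Packets SER and JHU of project HZ (MP_af40fb_al) -/

set_option autoImplicit false

namespace Pool.Agent.Helper91.HZ

open Pool.Agent.Helper4.HZ

theorem SER_holds : S_SER := by
  intro G _ _
  have key : ∀ H : Subgroup G, H.Normal → ∃ (r : ℕ) (K : ℕ → Subgroup G), K 0 = H ∧ K r = ⊥ ∧
      ∀ j < r, IsChief (K j) (K (j + 1)) := by
    intro H
    induction H using WellFoundedLT.induction with
    | ind H ih =>
      intro hH
      rcases eq_or_ne H ⊥ with h | h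
      · exact ⟨0, fun _ => ⊥, h.symm, rfl, fun j hj => absurd hj (Nat.not_lt_zero j)⟩
      · have hfin : {L : Subgroup G | L.Normal ∧ L < H}.Finite := Set.toFinite _
        obtain ⟨L, hL⟩ := hfin.exists_maximal ⟨⊥, inferInstance, bot_lt_iff_ne_bot.2 h⟩
        obtain ⟨r, K, h0, hr, hK⟩ := ih L hL.prop.2 hL.prop.1
        refine ⟨r + 1, fun j => match j with
          | 0 => H
          | j + 1 => K j, rfl, hr, fun j hj => ?_⟩
        rcases j with _ | j
        · change IsChief H (K 0)
          rw [h0]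
          refine ⟨hH, hL.prop.1, hL.prop.2, fun M hM hLM hMH => ?_⟩
          rcases eq_or_ne M H with h1 | h1
          · exact Or.inr h1
          · exact Or.inl (le_antisymm (hL.le_of_ge ⟨hM, lt_of_le_of_ne hMH h1⟩ hLM) hLM)
        · exact hK j (by omega)
  obtain ⟨r, K, h0, hr, hK⟩ := key ⊤ inferInstance
  exact ⟨r, K, h0, hr, hK⟩

theorem JHU_holds : S_JHU := by
  intro G _ _ T _ f r K hNS hf hK
  obtain ⟨hS, a, b, hab⟩ := hNS
  have hex : ∃ j, (K j).map f = ⊥ := ⟨r, by rw [hK.bot, Subgroup.map_bot]⟩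
  classical
  have hle : Nat.find hex ≤ r := Nat.find_min' hex (by rw [hK.bot, Subgroup.map_bot])
  have htop : (⊤ : Subgroup G).map f = ⊤ := by
    rw [← MonoidHom.range_eq_map, MonoidHom.range_eq_top.2 hf]
  have hne : Nat.find hex ≠ 0 := by
    intro h
    have h1 := Nat.find_spec hex
    rw [h, hK.top, htop] at h1
    have h2 : a ∈ (⊤ : Subgroup T) := Subgroup.mem_top a
    have h3 : b ∈ (⊤ : Subgroup T) := Subgroup.mem_top b
    rw [h1, Subgroup.mem_bot] at h2 h3
    exact hab (by rw [h2, h3])
  obtain ⟨j, hj⟩ := Nat.exists_eq_succ_of_ne_zero hne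
  have hjr : j < r := by omega
  have hbot : (K (j + 1)).map f = ⊥ := by
    have h1 := Nat.find_spec hex
    rwa [hj] at h1
  have hnb : (K j).map f ≠ ⊥ := Nat.find_min hex (by omega)
  have hch := hK.chief j hjr
  have hn1 := hch.nK
  have hn2 := hch.nL
  have hT : (K j).map f = ⊤ := by
    have hn : ((K j).map f).Normal := hn1.map f hf
    exact (hn.eq_bot_or_eq_top).resolve_left hnb
  have hker : K (j + 1) ≤ f.ker := by
    rw [← Subgroup.map_eq_bot_iff]
    exact hbot
  have hM : K j ⊓ f.ker = K (j + 1) := by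
    refine (hch.max _ inferInstance (le_inf hch.lt.le hker) inf_le_left).resolve_right fun h => ?_
    exact hnb ((Subgroup.map_eq_bot_iff _).2 (inf_eq_left.1 h))
  have hmem : ∀ k ∈ K j, f k = 1 ↔ k ∈ K (j + 1) := by
    intro k hk
    rw [← hM, Subgroup.mem_inf, MonoidHom.mem_ker]
    exact ⟨fun h => ⟨hk, h⟩, fun h => h.2⟩
  refine ⟨j, hjr, ⟨f.comp (K j).subtype, ?_, ?_⟩, ?_⟩
  · intro t
    have h1 : t ∈ (K j).map f := by
      rw [hT]
      exact Subgroup.mem_top t
    obtain ⟨k, hk, rfl⟩ := h1
    exact ⟨⟨k, hk⟩, rfl⟩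
  · intro k
    exact hmem k k.2
  · intro g
    constructor
    · intro hg k hk
      rw [← hmem _ ((K j).mul_mem (hn1.conj_mem k hk g) ((K j).inv_mem hk))]
      simp [hg]
    · intro hg
      have hcen : f g ∈ Subgroup.center T := by
        rw [Subgroup.mem_center_iff]
        intro t
        have h1 : t ∈ (K j).map f := by
          rw [hT]
          exact Subgroup.mem_top t
        obtain ⟨k, hk, rfl⟩ := h1
        have h2 : f (g * k * g⁻¹ * k⁻¹) = 1 := hker (hg k hk)
        rw [map_mul, map_mul, map_mul, map_inv, map_inv, mul_inv_eq_one, mul_inv_eq_iff_eq_mul] at h2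
        exact h2.symm
      rcases (inferInstance : (Subgroup.center T).Normal).eq_bot_or_eq_top with h | h
      · rwa [h, Subgroup.mem_bot] at hcen
      · exfalso
        have h1 : b ∈ Subgroup.center T := by
          rw [h]
          exact Subgroup.mem_top b
        exact hab (Subgroup.mem_center_iff.1 h1 a)

end Pool.Agent.Helper91.HZ
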